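import Mathlib.Algebra.Order.Archimedean.Real.Basic

/-!
Sign certificates along the barrier.
-/

set_option autoImplicit false
set_option linter.unusedSimpArgs false

namespace Pool.Agent.MP_d2a4c3_an

/-- Real part of the quartic. -/
def pr (x y : ℝ) : ℝ := (1) * x ^ 4 + (-6) * x ^ 2 * y ^ 2 + (1) * y ^ 4 + (2) * x ^ 3 + (-3) * x ^ 2 * y ^ 1 + (-6) * x ^ 1 * y ^ 2 + (1) * y ^ 3 + (-1) * x ^ 2 + (6) * x ^ 1 * y ^ 1 + (1) * y ^ 2 + (-28)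
/-- Imaginary part of the quartic. -/
def pi (x y : ℝ) : ℝ := (4) * x ^ 3 * y ^ 1 + (-4) * x ^ 1 * y ^ 3 + (1) * x ^ 3 + (6) * x ^ 2 * y ^ 1 + (-3) * x ^ 1 * y ^ 2 + (-2) * y ^ 3 + (-3) * x ^ 2 + (-2) * x ^ 1 * y ^ 1 + (3) * y ^ 2 + (4)
/-- Real part of `w` times the derivative. -/
def nr (x y : ℝ) : ℝ := (4) * x ^ 4 + (-24) * x ^ 2 * y ^ 2 + (4) * y ^ 4 + (6) * x ^ 3 + (-9) * x ^ 2 * y ^ 1 + (-18) * x ^ 1 * y ^ 2 + (3) * y ^ 3 + (-2) * x ^ 2 + (12) * x ^ 1 * y ^ 1 + (2) * y ^ 2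
/-- Imaginary part of `w` times the derivative. -/
def ni (x y : ℝ) : ℝ := (16) * x ^ 3 * y ^ 1 + (-16) * x ^ 1 * y ^ 3 + (3) * x ^ 3 + (18) * x ^ 2 * y ^ 1 + (-9) * x ^ 1 * y ^ 2 + (-6) * y ^ 3 + (-6) * x ^ 2 + (-4) * x ^ 1 * y ^ 1 + (6) * y ^ 2
/-- Real part of the numerator. -/
def fA (x y : ℝ) : ℝ := nr x y * pr x y + ni x y * pi x y
/-- Imaginary part of the numerator. -/
def fB (x y : ℝ) : ℝ := ni x y * pr x y - nr x y * pi x y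
/-- The denominator. -/
def fD (x y : ℝ) : ℝ := pr x y * pr x y + pi x y * pi x y

lemma bottom_0 (s : ℝ) (h1 : (-4 : ℝ) ≤ s) (h2 : s ≤ (3 / 2 : ℝ)) : 0 < -fB s (-4) := by
  have key : ∀ u v : ℝ, u = s - (-4 : ℝ) → v = (3 / 2 : ℝ) - s → 0 ≤ u → 0 ≤ v → 0 < -fB s (-4) := by
    intro u v hu hv hu0 hv0
    have e : -fB s (-4) = (32373 : ℝ) +
        (18007424 / 19487171 : ℝ) * (u ^ 0 * v ^ 7) +
        (53421696 / 19487171 : ℝ) * (u ^ 1 * v ^ 6) +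
        (14672256 / 19487171 : ℝ) * (u ^ 2 * v ^ 5) +
        (1728 / 19487171 : ℝ) * (u ^ 3 * v ^ 4) +
        (55328384 / 19487171 : ℝ) * (u ^ 4 * v ^ 3) +
        (92452068 / 19487171 : ℝ) * (u ^ 5 * v ^ 2) +
        (47921652 / 19487171 : ℝ) * (u ^ 6 * v ^ 1) +
        (9541395 / 19487171 : ℝ) * (u ^ 7 * v ^ 0) := by
      rw [hu, hv]
      simp only [fA, fB, fD, pr, pi, nr, ni]
      ring
    rw [e]
    positivity
  exact key _ _ rfl rfl (by linarith) (by linarith)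

lemma bottom_1 (s : ℝ) (h1 : (3 / 2 : ℝ) ≤ s) (h2 : s ≤ (7 : ℝ)) : 0 < -fB s (-4) := by
  have key : ∀ u v : ℝ, u = s - (3 / 2 : ℝ) → v = (7 : ℝ) - s → 0 ≤ u → 0 ≤ v → 0 < -fB s (-4) := by
    intro u v hu hv hu0 hv0
    have e : -fB s (-4) = (106915 : ℝ) +
        (19 / 19487171 : ℝ) * (u ^ 0 * v ^ 7) +
        (18868246 / 19487171 : ℝ) * (u ^ 1 * v ^ 6) +
        (118500528 / 19487171 : ℝ) * (u ^ 2 * v ^ 5) +
        (331535616 / 19487171 : ℝ) * (u ^ 3 * v ^ 4) +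
        (597226096 / 19487171 : ℝ) * (u ^ 4 * v ^ 3) +
        (763874400 / 19487171 : ℝ) * (u ^ 5 * v ^ 2) +
        (627208704 / 19487171 : ℝ) * (u ^ 6 * v ^ 1) +
        (248144256 / 19487171 : ℝ) * (u ^ 7 * v ^ 0) := by
      rw [hu, hv]
      simp only [fA, fB, fD, pr, pi, nr, ni]
      ring
    rw [e]
    positivity
  exact key _ _ rfl rfl (by linarith) (by linarith)

lemma bottom (s : ℝ) (h1 : (-4 : ℝ) ≤ s) (h2 : s ≤ (7 : ℝ)) : 0 < -fB s (-4) := by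
  rcases le_total s (3 / 2 : ℝ) with h | h
  · exact bottom_0 s h1 h
  · exact bottom_1 s h h2

lemma right_0 (s : ℝ) (h1 : (-4 : ℝ) ≤ s) (h2 : s ≤ (1 / 3 : ℝ)) : 0 < -fB 7 s := by
  have key : ∀ u v : ℝ, u = s - (-4 : ℝ) → v = (1 / 3 : ℝ) - s → 0 ≤ u → 0 ≤ v → 0 < -fB 7 s := by
    intro u v hu hv hu0 hv0
    have e : -fB 7 s = (79907 : ℝ) +
        (4298843745 / 62748517 : ℝ) * (u ^ 0 * v ^ 7) +
        (14117275998 / 62748517 : ℝ) * (u ^ 1 * v ^ 6) +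
        (18431968446 / 62748517 : ℝ) * (u ^ 2 * v ^ 5) +
        (10991690199 / 62748517 : ℝ) * (u ^ 3 * v ^ 4) +
        (2424745449 / 62748517 : ℝ) * (u ^ 4 * v ^ 3) +
        (20223 / 62748517 : ℝ) * (u ^ 5 * v ^ 2) +
        (143621901 / 62748517 : ℝ) * (u ^ 6 * v ^ 1) +
        (64696087 / 62748517 : ℝ) * (u ^ 7 * v ^ 0) := by
      rw [hu, hv]
      simp only [fA, fB, fD, pr, pi, nr, ni]
      ring
    rw [e]
    positivity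
  exact key _ _ rfl rfl (by linarith) (by linarith)

lemma right (s : ℝ) (h1 : (-4 : ℝ) ≤ s) (h2 : s ≤ (1 / 3 : ℝ)) : 0 < -fB 7 s := by
  exact right_0 s h1 h2

lemma innerH1_0 (s : ℝ) (h1 : (1 / 3 : ℝ) ≤ s) (h2 : s ≤ (3 / 5 : ℝ)) : 0 < fB s (1 / 3) - 2 * fA s (1 / 3) := by
  have key : ∀ u v : ℝ, u = s - (1 / 3 : ℝ) → v = (3 / 5 : ℝ) - s → 0 ≤ u → 0 ≤ v → 0 < fB s (1 / 3) - 2 * fA s (1 / 3) := by
    intro u v hu hv hu0 hv0
    have e : fB s (1 / 3) - 2 * fA s (1 / 3) = (15 : ℝ) +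
        (43416015625 / 65536 : ℝ) * (u ^ 0 * v ^ 8) +
        (41553359375 / 8192 : ℝ) * (u ^ 1 * v ^ 7) +
        (266743671875 / 16384 : ℝ) * (u ^ 2 * v ^ 6) +
        (233379378125 / 8192 : ℝ) * (u ^ 3 * v ^ 5) +
        (964543491875 / 32768 : ℝ) * (u ^ 4 * v ^ 4) +
        (147707040625 / 8192 : ℝ) * (u ^ 5 * v ^ 3) +
        (100347406475 / 16384 : ℝ) * (u ^ 6 * v ^ 2) +
        (7644855235 / 8192 : ℝ) * (u ^ 7 * v ^ 1) +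
        (1409229817 / 65536 : ℝ) * (u ^ 8 * v ^ 0) := by
      rw [hu, hv]
      simp only [fA, fB, fD, pr, pi, nr, ni]
      ring
    rw [e]
    positivity
  exact key _ _ rfl rfl (by linarith) (by linarith)

lemma innerH1 (s : ℝ) (h1 : (1 / 3 : ℝ) ≤ s) (h2 : s ≤ (3 / 5 : ℝ)) : 0 < fB s (1 / 3) - 2 * fA s (1 / 3) := by
  exact innerH1_0 s h1 h2

lemma innerH2_0 (s : ℝ) (h1 : (3 / 5 : ℝ) ≤ s) (h2 : s ≤ (19 / 5 : ℝ)) : 0 < -fB s (1 / 3) := by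
  have key : ∀ u v : ℝ, u = s - (3 / 5 : ℝ) → v = (19 / 5 : ℝ) - s → 0 ≤ u → 0 ≤ v → 0 < -fB s (1 / 3) := by
    intro u v hu hv hu0 hv0
    have e : -fB s (1 / 3) = (15 : ℝ) +
        (133368119 / 587068342272 : ℝ) * (u ^ 0 * v ^ 7) +
        (97361727809 / 587068342272 : ℝ) * (u ^ 1 * v ^ 6) +
        (455801837057 / 195689447424 : ℝ) * (u ^ 2 * v ^ 5) +
        (6840062052805 / 587068342272 : ℝ) * (u ^ 3 * v ^ 4) +
        (15240661477765 / 587068342272 : ℝ) * (u ^ 4 * v ^ 3) +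
        (5254806395969 / 195689447424 : ℝ) * (u ^ 5 * v ^ 2) +
        (6460779540737 / 587068342272 : ℝ) * (u ^ 6 * v ^ 1) +
        (954205271543 / 587068342272 : ℝ) * (u ^ 7 * v ^ 0) := by
      rw [hu, hv]
      simp only [fA, fB, fD, pr, pi, nr, ni]
      ring
    rw [e]
    positivity
  exact key _ _ rfl rfl (by linarith) (by linarith)

lemma innerH2_1 (s : ℝ) (h1 : (19 / 5 : ℝ) ≤ s) (h2 : s ≤ (7 : ℝ)) : 0 < -fB s (1 / 3) := by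
  have key : ∀ u v : ℝ, u = s - (19 / 5 : ℝ) → v = (7 : ℝ) - s → 0 ≤ u → 0 ≤ v → 0 < -fB s (1 / 3) := by
    intro u v hu hv hu0 hv0
    have e : -fB s (1 / 3) = (2710 : ℝ) +
        (246869627959 / 293534171136 : ℝ) * (u ^ 0 * v ^ 7) +
        (1837416075745 / 293534171136 : ℝ) * (u ^ 1 * v ^ 6) +
        (1453086863425 / 97844723712 : ℝ) * (u ^ 2 * v ^ 5) +
        (2908961721125 / 293534171136 : ℝ) * (u ^ 3 * v ^ 4) +
        (2726373125 / 293534171136 : ℝ) * (u ^ 4 * v ^ 3) +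
        (2669948790625 / 97844723712 : ℝ) * (u ^ 5 * v ^ 2) +
        (16975939890625 / 293534171136 : ℝ) * (u ^ 6 * v ^ 1) +
        (9122106484375 / 293534171136 : ℝ) * (u ^ 7 * v ^ 0) := by
      rw [hu, hv]
      simp only [fA, fB, fD, pr, pi, nr, ni]
      ring
    rw [e]
    positivity
  exact key _ _ rfl rfl (by linarith) (by linarith)

lemma innerH2 (s : ℝ) (h1 : (3 / 5 : ℝ) ≤ s) (h2 : s ≤ (7 : ℝ)) : 0 < -fB s (1 / 3) := by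
  rcases le_total s (19 / 5 : ℝ) with h | h
  · exact innerH2_0 s h1 h
  · exact innerH2_1 s h h2

lemma innerV_0 (s : ℝ) (h1 : (1 / 3 : ℝ) ≤ s) (h2 : s ≤ (5 : ℝ)) : 0 < fB (1 / 3) s := by
  have key : ∀ u v : ℝ, u = s - (1 / 3 : ℝ) → v = (5 : ℝ) - s → 0 ≤ u → 0 ≤ v → 0 < fB (1 / 3) s := by
    intro u v hu hv hu0 hv0
    have e : fB (1 / 3) s = (4 : ℝ) +
        (179 / 26353376 : ℝ) * (u ^ 0 * v ^ 7) +
        (5041 / 3764768 : ℝ) * (u ^ 1 * v ^ 6) +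
        (427617 / 3764768 : ℝ) * (u ^ 2 * v ^ 5) +
        (4236221 / 3764768 : ℝ) * (u ^ 3 * v ^ 4) +
        (11564023 / 3764768 : ℝ) * (u ^ 4 * v ^ 3) +
        (11113251 / 3764768 : ℝ) * (u ^ 5 * v ^ 2) +
        (146677 / 537824 : ℝ) * (u ^ 6 * v ^ 1) +
        (36353993 / 26353376 : ℝ) * (u ^ 7 * v ^ 0) := by
      rw [hu, hv]
      simp only [fA, fB, fD, pr, pi, nr, ni]
      ring
    rw [e]
    positivity
  exact key _ _ rfl rfl (by linarith) (by linarith)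

lemma innerV (s : ℝ) (h1 : (1 / 3 : ℝ) ≤ s) (h2 : s ≤ (5 : ℝ)) : 0 < fB (1 / 3) s := by
  exact innerV_0 s h1 h2

lemma top_0 (s : ℝ) (h1 : (-4 : ℝ) ≤ s) (h2 : s ≤ (1 / 3 : ℝ)) : 0 < fB s 5 := by
  have key : ∀ u v : ℝ, u = s - (-4 : ℝ) → v = (1 / 3 : ℝ) - s → 0 ≤ u → 0 ≤ v → 0 < fB s 5 := by
    intro u v hu hv hu0 hv0
    have e : fB s 5 = (13559 : ℝ) +
        (1786271616 / 62748517 : ℝ) * (u ^ 0 * v ^ 7) +
        (5175792108 / 62748517 : ℝ) * (u ^ 1 * v ^ 6) +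
        (5726395602 / 62748517 : ℝ) * (u ^ 2 * v ^ 5) +
        (2382146901 / 62748517 : ℝ) * (u ^ 3 * v ^ 4) +
        (20817 / 62748517 : ℝ) * (u ^ 4 * v ^ 3) +
        (139233411 / 62748517 : ℝ) * (u ^ 5 * v ^ 2) +
        (363004089 / 62748517 : ℝ) * (u ^ 6 * v ^ 1) +
        (115771187 / 62748517 : ℝ) * (u ^ 7 * v ^ 0) := by
      rw [hu, hv]
      simp only [fA, fB, fD, pr, pi, nr, ni]
      ring
    rw [e]
    positivity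
  exact key _ _ rfl rfl (by linarith) (by linarith)

lemma top (s : ℝ) (h1 : (-4 : ℝ) ≤ s) (h2 : s ≤ (1 / 3 : ℝ)) : 0 < fB s 5 := by
  exact top_0 s h1 h2

lemma left1_0 (s : ℝ) (h1 : (-1 : ℝ) ≤ s) (h2 : s ≤ (5 : ℝ)) : 0 < fB (-4) s := by
  have key : ∀ u v : ℝ, u = s - (-1 : ℝ) → v = (5 : ℝ) - s → 0 ≤ u → 0 ≤ v → 0 < fB (-4) s := by
    intro u v hu hv hu0 hv0
    have e : fB (-4) s = (13265 : ℝ) +
        (24949 / 46656 : ℝ) * (u ^ 1 * v ^ 6) +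
        (27443 / 7776 : ℝ) * (u ^ 2 * v ^ 5) +
        (18221 / 1728 : ℝ) * (u ^ 3 * v ^ 4) +
        (174017 / 11664 : ℝ) * (u ^ 4 * v ^ 3) +
        (205801 / 15552 : ℝ) * (u ^ 5 * v ^ 2) +
        (17581 / 2592 : ℝ) * (u ^ 6 * v ^ 1) +
        (136177 / 46656 : ℝ) * (u ^ 7 * v ^ 0) := by
      rw [hu, hv]
      simp only [fA, fB, fD, pr, pi, nr, ni]
      ring
    rw [e]
    positivity
  exact key _ _ rfl rfl (by linarith) (by linarith)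

lemma left1 (s : ℝ) (h1 : (-1 : ℝ) ≤ s) (h2 : s ≤ (5 : ℝ)) : 0 < fB (-4) s := by
  exact left1_0 s h1 h2

lemma left2_0 (s : ℝ) (h1 : (-4 : ℝ) ≤ s) (h2 : s ≤ (-1 : ℝ)) : 0 < fA (-4) s - 4 * fD (-4) s - fB (-4) s := by
  have key : ∀ u v : ℝ, u = s - (-4 : ℝ) → v = (-1 : ℝ) - s → 0 ≤ u → 0 ≤ v → 0 < fA (-4) s - 4 * fD (-4) s - fB (-4) s := by
    intro u v hu hv hu0 hv0
    have e : fA (-4) s - 4 * fD (-4) s - fB (-4) s = (10190 : ℝ) +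
        (133606 / 729 : ℝ) * (u ^ 0 * v ^ 7) +
        (167534 / 243 : ℝ) * (u ^ 1 * v ^ 6) +
        (288890 / 243 : ℝ) * (u ^ 2 * v ^ 5) +
        (891866 / 729 : ℝ) * (u ^ 3 * v ^ 4) +
        (193754 / 243 : ℝ) * (u ^ 4 * v ^ 3) +
        (74426 / 243 : ℝ) * (u ^ 5 * v ^ 2) +
        (38395 / 729 : ℝ) * (u ^ 6 * v ^ 1) := by
      rw [hu, hv]
      simp only [fA, fB, fD, pr, pi, nr, ni]
      ring
    rw [e]
    positivity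
  exact key _ _ rfl rfl (by linarith) (by linarith)

lemma left2 (s : ℝ) (h1 : (-4 : ℝ) ≤ s) (h2 : s ≤ (-1 : ℝ)) : 0 < fA (-4) s - 4 * fD (-4) s - fB (-4) s := by
  exact left2_0 s h1 h2

end Pool.Agent.MP_d2a4c3_an
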