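import Mathlib.Topology.Sheaves.Presheaf
import Mathlib.Algebra.Order.Ring.Star
import Mathlib.Algebra.Order.Star.Real
import Mathlib.Analysis.Complex.Polynomial.Basic
import Mathlib.Analysis.CStarAlgebra.Classes
import Mathlib.RingTheory.SimpleRing.Principal
import Mathlib.Tactic.Polynomial.Basic
import Pool.Agent.MP_d2a4c3_an.Cert

-- ======== part 0: formerly Pool.Agent.MP_d2a4c3_an.Criterion
section MrgPart0

/-!
A sufficient condition for a point to lie in the shadow of a quartic polynomial.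
-/

set_option autoImplicit false

namespace Pool.Agent.MP_d2a4c3_an

open Polynomial Filter Topology

/-- Bound for the derivative of the logarithmic derivative away from the roots. -/
lemma logderiv_bound (z a : ℂ) (δ : ℝ) (hδ : 0 < δ) (s : Multiset ℂ) :
    (∀ r ∈ s, δ ≤ ‖z - r‖) →
    ‖(derivative (derivative (C a * (s.map fun r => X - C r).prod))).eval z *
        (C a * (s.map fun r => X - C r).prod).eval z -
        (derivative (C a * (s.map fun r => X - C r).prod)).eval z ^ 2‖ ≤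
      (Multiset.card s : ℝ) / δ ^ 2 * ‖(C a * (s.map fun r => X - C r).prod).eval z‖ ^ 2 := by
  induction s using Multiset.induction_on with
  | empty => intro _; simp
  | cons r s ih =>
    intro h
    have ih' := ih fun r' hr' => h r' (Multiset.mem_cons_of_mem hr')
    have hr := h r (Multiset.mem_cons_self _ _)
    have e : C a * ((r ::ₘ s).map fun r => X - C r).prod =
        (X - C r) * (C a * (s.map fun r => X - C r).prod) := by
      rw [Multiset.map_cons, Multiset.prod_cons]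
      ring
    rw [e]
    generalize C a * (s.map fun r => X - C r).prod = Q at ih' ⊢
    have e2 : (derivative (derivative ((X - C r) * Q))).eval z * ((X - C r) * Q).eval z -
        (derivative ((X - C r) * Q)).eval z ^ 2 =
        (z - r) ^ 2 * ((derivative (derivative Q)).eval z * Q.eval z -
          (derivative Q).eval z ^ 2) - Q.eval z ^ 2 := by
      simp only [derivative_mul, derivative_add, derivative_sub, derivative_X, derivative_C,
        derivative_one, derivative_zero, eval_add, eval_mul, eval_sub, eval_X, eval_C, eval_one,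
        eval_zero]
      ring
    rw [e2, eval_mul, eval_sub, eval_X, eval_C, norm_mul, Multiset.card_cons]
    have h1 : 1 ≤ ‖z - r‖ ^ 2 / δ ^ 2 := by
      rw [le_div_iff₀ (by positivity), one_mul]
      gcongr
    calc _ ≤ ‖(z - r) ^ 2 * ((derivative (derivative Q)).eval z * Q.eval z -
          (derivative Q).eval z ^ 2)‖ + ‖Q.eval z ^ 2‖ := norm_sub_le _ _
      _ ≤ ‖z - r‖ ^ 2 * ((Multiset.card s : ℝ) / δ ^ 2 * ‖Q.eval z‖ ^ 2) +
          ‖z - r‖ ^ 2 / δ ^ 2 * ‖Q.eval z‖ ^ 2 := by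
        rw [norm_mul, norm_pow, norm_pow]
        gcongr
        exact le_mul_of_one_le_left (by positivity) h1
      _ = _ := by
        push_cast
        ring

lemma logderiv_bound' (Q : ℂ[X]) (z : ℂ) (δ : ℝ) (hδ : 0 < δ) (N : ℕ) (hN : Q.natDegree ≤ N)
    (h : ∀ r, Q.IsRoot r → δ ≤ ‖z - r‖) :
    ‖(derivative (derivative Q)).eval z * Q.eval z - (derivative Q).eval z ^ 2‖ ≤
      (N : ℝ) / δ ^ 2 * ‖Q.eval z‖ ^ 2 := by
  have e := C_leadingCoeff_mul_prod_multiset_X_sub_C (p := Q) IsAlgClosed.card_roots_eq_natDegree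
  have b := logderiv_bound z Q.leadingCoeff δ hδ Q.roots
    fun r hr => h r (isRoot_of_mem_roots hr)
  rw [e] at b
  refine b.trans ?_
  have : (Multiset.card Q.roots : ℝ) ≤ N := by
    exact_mod_cast (card_roots' Q).trans hN
  gcongr

/-- The four-step recurrence for the coefficients of a power of a quartic. -/
lemma recurrence (p0 p1 p2 p3 p4 : ℂ) (R : ℂ[X])
    (hR : R = C p0 + C p1 * X + C p2 * X ^ 2 + C p3 * X ^ 3 + C p4 * X ^ 4) (n k : ℕ) :
    p0 * ((k : ℂ) + 4) * (R ^ n).coeff (k + 4) +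
      p1 * ((k : ℂ) + 4 - (n + 1)) * (R ^ n).coeff (k + 3) +
      p2 * ((k : ℂ) + 4 - 2 * (n + 1)) * (R ^ n).coeff (k + 2) +
      p3 * ((k : ℂ) + 4 - 3 * (n + 1)) * (R ^ n).coeff (k + 1) +
      p4 * ((k : ℂ) + 4 - 4 * (n + 1)) * (R ^ n).coeff k = 0 := by
  have h1 : R * (X * derivative (R ^ n)) = C (n : ℂ) * (X * derivative R) * R ^ n := by
    rcases n with _ | n
    · simp
    · rw [derivative_pow_succ]
      push_cast
      simp only [map_add, map_one, map_natCast]
      ring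
  generalize R ^ n = S at h1 ⊢
  have hT : ∀ i, (X * derivative S).coeff i = i * S.coeff i := by
    intro i
    rcases i with _ | i
    · simp
    · rw [coeff_X_mul, coeff_derivative]
      push_cast
      ring
  generalize X * derivative S = T at h1 hT
  have h2 : R * T = C p0 * T + C p1 * (X ^ 1 * T) + C p2 * (X ^ 2 * T) + C p3 * (X ^ 3 * T) +
      C p4 * (X ^ 4 * T) := by
    rw [hR]
    ring
  have h3 : C (n : ℂ) * (X * derivative R) * S = C (n * p1) * (X ^ 1 * S) +
      C (n * 2 * p2) * (X ^ 2 * S) + C (n * 3 * p3) * (X ^ 3 * S) +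
      C (n * 4 * p4) * (X ^ 4 * S) := by
    rw [hR]
    simp only [derivative_add, derivative_mul, derivative_C, derivative_X, derivative_X_pow,
      map_mul, map_natCast, map_ofNat, Nat.cast_ofNat]
    ring
  have c1 : ∀ U : ℂ[X], (X ^ 1 * U).coeff (k + 4) = U.coeff (k + 3) := fun U =>
    coeff_X_pow_mul U 1 (k + 3)
  have c2 : ∀ U : ℂ[X], (X ^ 2 * U).coeff (k + 4) = U.coeff (k + 2) := fun U =>
    coeff_X_pow_mul U 2 (k + 2)
  have c3 : ∀ U : ℂ[X], (X ^ 3 * U).coeff (k + 4) = U.coeff (k + 1) := fun U =>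
    coeff_X_pow_mul U 3 (k + 1)
  have c4 : ∀ U : ℂ[X], (X ^ 4 * U).coeff (k + 4) = U.coeff k := fun U =>
    coeff_X_pow_mul U 4 k
  have h4 := congrArg (fun U : ℂ[X] => U.coeff (k + 4)) h1
  simp only [h2, h3, coeff_add, coeff_C_mul, c1, c2, c3, c4, hT] at h4
  push_cast at h4
  linear_combination h4

/-- Initial phase: the ratios stay close to their first value. -/
lemma initial_phase (u : ℕ → ℂ) (N : ℕ) (W b : ℝ) (hW : 0 < W) (hb : 0 ≤ b) (h0 : ‖u 0‖ = W)
    (hstep : ∀ m, m + 1 < N → ‖u m‖ * ‖u (m + 1) - u m‖ ≤ b) (m : ℕ) :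
    m < N → 4 * b * m ≤ W ^ 2 → ‖u m - u 0‖ ≤ 2 * b * m / W := by
  induction m with
  | zero => intro _ _; simp
  | succ m ih =>
    intro h1 h2
    push_cast at h2 ⊢
    have h2' : 4 * b * m ≤ W ^ 2 := by nlinarith
    have a := ih (by omega) h2'
    have a2 : 2 * b * m / W ≤ W / 2 := by
      rw [div_le_iff₀ hW]
      nlinarith
    have a3 : W / 2 ≤ ‖u m‖ := by
      have := norm_sub_norm_le (u 0) (u m)
      rw [norm_sub_rev, h0] at this
      linarith
    have a4 : ‖u (m + 1) - u m‖ ≤ 2 * b / W := by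
      rw [le_div_iff₀ hW]
      have := hstep m h1
      nlinarith [norm_nonneg (u (m + 1) - u m)]
    calc ‖u (m + 1) - u 0‖ ≤ ‖u (m + 1) - u m‖ + ‖u m - u 0‖ := norm_sub_le_norm_sub_add_norm_sub _ _ _
      _ ≤ 2 * b / W + 2 * b * m / W := add_le_add a4 a
      _ = _ := by ring

/-- One slowly varying step. -/
lemma slow_step (u u' : ℂ) (m r L b : ℝ) (hL : 0 < L) (hu : L ≤ ‖u‖)
    (hτ : ‖(m : ℂ) / u‖ ≤ r) (hstep : ‖u‖ * ‖u' - u‖ ≤ b) (hb : b / L ≤ L / 2) :
    ‖((m : ℂ) + 1) / u' - (m : ℂ) / u‖ ≤ (1 + r * (b / L)) / (L / 2) := by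
  have h1 : ‖u' - u‖ ≤ b / L := by
    rw [le_div_iff₀ hL]
    nlinarith [norm_nonneg (u' - u)]
  have h2 : L / 2 ≤ ‖u'‖ := by
    have := norm_sub_norm_le u u'
    rw [norm_sub_rev] at this
    linarith
  have hu0 : u ≠ 0 := norm_pos_iff.1 (by linarith)
  have hu0' : u' ≠ 0 := norm_pos_iff.1 (by linarith)
  have e : ((m : ℂ) + 1) / u' - (m : ℂ) / u = (1 - (m : ℂ) / u * (u' - u)) / u' := by
    field_simp
    ring
  rw [e, norm_div]
  have hr : 0 ≤ r := (norm_nonneg _).trans hτ
  have h3 : ‖1 - (m : ℂ) / u * (u' - u)‖ ≤ 1 + r * (b / L) := by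
    refine (norm_sub_le _ _).trans ?_
    rw [norm_one, norm_mul]
    gcongr
  have hb0 : 0 ≤ b / L := (norm_nonneg _).trans h1
  gcongr

/-- The exit argument for a fixed accuracy. -/
lemma exit_index (u : ℕ → ℕ → ℂ) (K : Set ℂ) (ρ r V B T : ℝ) (hρ : 0 < ρ) (hV : 0 < V)
    (hB : 0 < B) (hT : 0 < T) (hball : ∀ t : ℂ, ‖t‖ < ρ → t ∈ K) (hK : ∀ t ∈ K, ‖t‖ ≤ r)
    (hne : ∀ n m, m < 4 * n → u n m ≠ 0)
    (h0 : ∀ n : ℕ, ‖u n 0‖ = n * V)
    (hstep : ∀ n m, m + 1 < 4 * n → ‖u n m‖ * ‖u n (m + 1) - u n m‖ ≤ B * n)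
    (hend : ∀ n m : ℕ, m + 1 = 4 * n → ‖((m : ℂ) + 1) / u n m‖ = n * T)
    (ε : ℝ) (hε : 0 < ε) :
    ∃ n k : ℕ, k + 4 < 4 * n ∧ (((k + 4 : ℕ) : ℂ) + 1) / u n (k + 4) ∉ K ∧
      (((k + 3 : ℕ) : ℂ) + 1) / u n (k + 3) ∈ K ∧
      ∀ m, k ≤ m → m < k + 4 →
        ‖(((m + 1 : ℕ) : ℂ) + 1) / u n (m + 1) - ((m : ℂ) + 1) / u n m‖ ≤ ε := by
  classical
  have hr : 0 < r := by
    have := hK (ρ / 2 : ℝ) (hball _ (by
      rw [Complex.norm_real, Real.norm_eq_abs, abs_of_pos (by linarith)]
      linarith))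
    rw [Complex.norm_real, Real.norm_eq_abs, abs_of_pos (by linarith)] at this
    linarith
  set η : ℝ := min (V ^ 2 / (4 * B)) (ρ * V / 8) with hη
  have hη0 : 0 < η := lt_min (by positivity) (by positivity)
  have hη1 : η ≤ V ^ 2 / (4 * B) := min_le_left _ _
  have hη2 : η ≤ ρ * V / 8 := min_le_right _ _
  set c : ℝ := η / (2 * r) with hc
  have hc0 : 0 < c := by positivity
  obtain ⟨n, hn⟩ := exists_nat_gt (max (max (8 / η) (8 / (ρ * V)))
    (max (r / T) (max (2 * B / c ^ 2) (2 * (1 + r * (B / c)) / (c * ε)))))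
  simp only [max_lt_iff] at hn
  obtain ⟨⟨n1, n2⟩, n3, n4, n5⟩ := hn
  have hn0 : (0 : ℝ) < n := lt_trans (by positivity) n1
  have hn0' : 0 < n := by exact_mod_cast hn0
  rw [div_lt_iff₀ hη0] at n1
  rw [div_lt_iff₀ (by positivity)] at n2
  rw [div_lt_iff₀ hT] at n3
  rw [div_lt_iff₀ (by positivity)] at n4
  rw [div_lt_iff₀ (by positivity)] at n5
  have hex : ∃ m, m < 4 * n ∧ ((m : ℂ) + 1) / u n m ∉ K := by
    refine ⟨4 * n - 1, by omega, fun h => ?_⟩
    have := hK _ h
    rw [hend n (4 * n - 1) (by omega)] at this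
    linarith
  have hM := Nat.find_spec hex
  have hmin : ∀ m, m < Nat.find hex → ((m : ℂ) + 1) / u n m ∈ K := by
    intro m hm
    have := Nat.find_min hex hm
    by_contra hcon
    exact this ⟨by omega, hcon⟩
  generalize Nat.find hex = M at hM hmin
  have hbig : η * n < M := by
    by_contra hcon
    push Not at hcon
    apply hM.2
    apply hball
    have hM0 : (0 : ℝ) ≤ M := Nat.cast_nonneg M
    have a1 : 4 * (B * n) * M ≤ (n * V) ^ 2 := by
      have b1 : η * (4 * B) ≤ V ^ 2 := by rwa [le_div_iff₀ (by positivity)] at hη1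
      calc 4 * (B * n) * M ≤ 4 * (B * n) * (η * n) := by gcongr
        _ = η * (4 * B) * n ^ 2 := by ring
        _ ≤ V ^ 2 * n ^ 2 := by gcongr
        _ = _ := by ring
    have a2 := initial_phase (u n) (4 * n) (n * V) (B * n) (by positivity) (by positivity) (h0 n)
      (hstep n) M hM.1 a1
    have a3 : 2 * (B * n) * M / (n * V) ≤ n * V / 2 := by
      rw [div_le_iff₀ (by positivity)]
      nlinarith
    have a4 : n * V / 2 ≤ ‖u n M‖ := by
      have := norm_sub_norm_le (u n 0) (u n M)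
      rw [norm_sub_rev, h0] at this
      linarith
    have a5 : ‖(M : ℂ) + 1‖ = M + 1 := by exact_mod_cast Complex.norm_natCast (M + 1)
    rw [norm_div, a5, div_lt_iff₀ (lt_of_lt_of_le (by positivity) a4)]
    have a6 : η * n ≤ ρ * V / 8 * n := by gcongr
    calc (M : ℝ) + 1 < ρ * (n * V / 2) := by nlinarith
      _ ≤ ρ * ‖u n M‖ := by gcongr
  have hM8 : (8 : ℝ) < M := by nlinarith
  have hM8' : 8 < M := by exact_mod_cast hM8
  obtain ⟨k, rfl⟩ : ∃ k, M = k + 4 := ⟨M - 4, by omega⟩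
  refine ⟨n, k, hM.1, hM.2, hmin _ (by omega), fun m hm1 hm2 => ?_⟩
  have hτ := hK _ (hmin m hm2)
  have hu0 : 0 < ‖u n m‖ := norm_pos_iff.2 (hne n m (by omega))
  have hL : c * n ≤ ‖u n m‖ := by
    have a5 : ‖(m : ℂ) + 1‖ = m + 1 := by exact_mod_cast Complex.norm_natCast (m + 1)
    have a6 := hτ
    rw [norm_div, a5, div_le_iff₀ hu0] at a6
    have a7 : (k : ℝ) ≤ m := by exact_mod_cast hm1
    push_cast at hbig hM8
    rw [hc, div_mul_eq_mul_div, div_le_iff₀ (by positivity)]
    nlinarith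
  have e1 : B * n / (c * n) = B / c := by field_simp
  have s := slow_step (u n m) (u n (m + 1)) ((m : ℝ) + 1) r (c * n) (B * n) (by positivity) hL
    (by push_cast; exact hτ) (hstep n m (by omega)) (by
      rw [e1, div_le_iff₀ hc0]
      nlinarith)
  push_cast at s ⊢
  refine s.trans ?_
  rw [e1, div_le_iff₀ (by positivity)]
  nlinarith

/-- Passing to the limit. -/
lemma limit_point (p0 p1 p2 p3 p4 : ℂ) (K U : Set ℂ) (hK : IsCompact K) (hU : IsOpen U)
    (hUK : U ⊆ K)
    (h : ∀ ε : ℝ, 0 < ε → ∃ (α : ℝ) (t0 t1 t2 t3 t4 : ℂ), α ∈ Set.Icc (0 : ℝ) 4 ∧ t0 ∉ K ∧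
      t1 ∈ K ∧ ‖t0 - t1‖ ≤ ε ∧ ‖t1 - t2‖ ≤ ε ∧ ‖t2 - t3‖ ≤ ε ∧ ‖t3 - t4‖ ≤ ε ∧
      p0 * α + p1 * (α - 1) * t1 + p2 * (α - 2) * (t1 * t2) + p3 * (α - 3) * (t1 * t2 * t3) +
        p4 * (α - 4) * (t1 * t2 * t3 * t4) = 0) :
    ∃ (α : ℝ) (t : ℂ), α ∈ Set.Icc (0 : ℝ) 4 ∧ t ∈ K ∧ t ∉ U ∧
      p0 * α + p1 * (α - 1) * t + p2 * (α - 2) * t ^ 2 + p3 * (α - 3) * t ^ 3 +
        p4 * (α - 4) * t ^ 4 = 0 := by
  choose α t0 t1 t2 t3 t4 hα h0 h1 d0 d1 d2 d3 heq using
    fun j : ℕ => h (1 / ((j : ℝ) + 1)) (by positivity)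
  obtain ⟨⟨a, t⟩, ⟨ha, ht⟩, φ, hφ, hlim⟩ :=
    (isCompact_Icc.prod hK).tendsto_subseq (x := fun j => (α j, t1 j)) fun j => ⟨hα j, h1 j⟩
  have la : Tendsto (fun j => α (φ j)) atTop (𝓝 a) := (continuous_fst.tendsto _).comp hlim
  have l1 : Tendsto (fun j => t1 (φ j)) atTop (𝓝 t) := (continuous_snd.tendsto _).comp hlim
  have lε : Tendsto (fun j => 1 / ((φ j : ℝ) + 1)) atTop (𝓝 0) :=
    tendsto_one_div_add_atTop_nhds_zero_nat.comp hφ.tendsto_atTop
  have near : ∀ f g : ℕ → ℂ, (∀ j : ℕ, ‖f j - g j‖ ≤ 1 / ((j : ℝ) + 1)) →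
      Tendsto (fun j => f (φ j) - g (φ j)) atTop (𝓝 0) := fun f g hfg =>
    squeeze_zero_norm (fun j => hfg (φ j)) lε
  have l0 : Tendsto (fun j => t0 (φ j)) atTop (𝓝 t) := by
    simpa using (near t0 t1 d0).add l1
  have l2 : Tendsto (fun j => t2 (φ j)) atTop (𝓝 t) := by
    simpa using l1.sub (near t1 t2 d1)
  have l3 : Tendsto (fun j => t3 (φ j)) atTop (𝓝 t) := by
    simpa using l2.sub (near t2 t3 d2)
  have l4 : Tendsto (fun j => t4 (φ j)) atTop (𝓝 t) := by
    simpa using l3.sub (near t3 t4 d3)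
  have la' : Tendsto (fun j => (α (φ j) : ℂ)) atTop (𝓝 (a : ℂ)) :=
    (Complex.continuous_ofReal.tendsto _).comp la
  refine ⟨a, t, ha, ht, fun hU' => ?_, ?_⟩
  · obtain ⟨j, hj⟩ := (l0.eventually (hU.mem_nhds hU')).exists
    exact h0 _ (hUK hj)
  · have lim := ((((la'.const_mul p0).add (((la'.sub_const 1).const_mul p1).mul l1)).add
      (((la'.sub_const 2).const_mul p2).mul (l1.mul l2))).add
      (((la'.sub_const 3).const_mul p3).mul ((l1.mul l2).mul l3))).add
      (((la'.sub_const 4).const_mul p4).mul (((l1.mul l2).mul l3).mul l4))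
    simp only [heq] at lim
    have := tendsto_nhds_unique lim tendsto_const_nhds
    linear_combination this

end Pool.Agent.MP_d2a4c3_an

end MrgPart0

-- ======== part 1: formerly Pool.Agent.MP_d2a4c3_an.Shadow
section MrgPart1

set_option autoImplicit false

namespace Pool.Agent.MP_d2a4c3_an

open Polynomial Filter Topology

theorem mem_shadow (P : ℂ[X]) (hP : P.natDegree = 4) (z : ℂ) (K U : Set ℂ) (hK : IsCompact K)
    (hU : IsOpen U) (hUK : U ⊆ K) (hz : z ∈ U)
    (barrier : ∀ w ∈ K, w ∉ U → ∀ α ∈ Set.Icc (0 : ℝ) 4,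
      (α : ℂ) * P.eval w - (w - z) * (derivative P).eval w ≠ 0) :
    z ∈ closure {y : ℂ | ∃ n m : ℕ, 1 ≤ n ∧ m ≤ n * P.natDegree ∧
      (derivative^[m] (P ^ n)).IsRoot y} := by
  by_contra hcon
  rw [Metric.mem_closure_iff] at hcon
  push Not at hcon
  obtain ⟨δ, hδ, hfar⟩ := hcon
  have hfar' : ∀ n m : ℕ, 1 ≤ n → m ≤ 4 * n → ∀ y, (derivative^[m] (P ^ n)).IsRoot y →
      δ ≤ ‖z - y‖ := by
    intro n m hn hm y hy
    have := hfar y ⟨n, m, hn, by rw [hP]; omega, hy⟩
    rwa [dist_eq_norm] at this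
  set R := taylor z P with hRdef
  have hRdeg : R.natDegree = 4 := by rw [hRdef, natDegree_taylor, hP]
  have hR : R = C (R.coeff 0) + C (R.coeff 1) * X + C (R.coeff 2) * X ^ 2 +
      C (R.coeff 3) * X ^ 3 + C (R.coeff 4) * X ^ 4 := by
    conv_lhs => rw [R.as_sum_range_C_mul_X_pow, hRdeg]
    simp [Finset.sum_range_succ]
  let q : ℕ → ℕ → ℂ := fun n m => (derivative^[m] (P ^ n)).eval z
  have hqa : ∀ n m, q n m = (m.factorial : ℂ) * (R ^ n).coeff m := by
    intro n m
    have e1 : R ^ n = taylor z (P ^ n) := (map_pow (taylorAlgHom z) P n).symm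
    simp only [q]
    rw [e1, taylor_coeff, ← factorial_smul_hasseDeriv]
    simp
  have hq0 : ∀ n m, 1 ≤ n → m ≤ 4 * n → q n m ≠ 0 := by
    intro n m hn hm h
    have := hfar' n m hn hm z h
    rw [sub_self, norm_zero] at this
    linarith
  have ha0 : ∀ n m, 1 ≤ n → m ≤ 4 * n → (R ^ n).coeff m ≠ 0 := by
    intro n m hn hm h
    apply hq0 n m hn hm
    rw [hqa, h, mul_zero]
  let u : ℕ → ℕ → ℂ := fun n m => q n (m + 1) / q n m
  have hτ : ∀ n m : ℕ, m < 4 * n →
      ((m : ℂ) + 1) / u n m = (R ^ n).coeff m / (R ^ n).coeff (m + 1) := by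
    intro n m hm
    have h1 := ha0 n m (by omega) hm.le
    have h2 := ha0 n (m + 1) (by omega) hm
    have h3 : (m.factorial : ℂ) ≠ 0 := by exact_mod_cast m.factorial_ne_zero
    have h4 : (m : ℂ) + 1 ≠ 0 := by exact_mod_cast Nat.succ_ne_zero m
    simp only [u, hqa, Nat.factorial_succ]
    push_cast
    field_simp
  have hP0 : P.eval z ≠ 0 := by simpa [q] using hq0 1 0 le_rfl (by omega)
  have hP1 : (derivative P).eval z ≠ 0 := by simpa [q] using hq0 1 1 le_rfl (by omega)
  have hp3 : R.coeff 3 ≠ 0 := by simpa using ha0 1 3 le_rfl (by omega)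
  have hp4 : R.coeff 4 ≠ 0 := by simpa using ha0 1 4 le_rfl (by omega)
  have hK₀ : IsCompact ((fun t => z + t) ⁻¹' K) := (Homeomorph.addLeft z).isCompact_preimage.2 hK
  have hU₀ : IsOpen ((fun t => z + t) ⁻¹' U) := hU.preimage (by fun_prop)
  obtain ⟨ρ, hρ, hball⟩ := Metric.isOpen_iff.1 hU₀ 0 (by simpa using hz)
  obtain ⟨r, hr⟩ := hK₀.isBounded.exists_norm_le
  have main := exit_index u ((fun t => z + t) ⁻¹' K) ρ r
    ‖(derivative P).eval z / P.eval z‖ (4 / δ ^ 2) ‖R.coeff 3 / R.coeff 4‖ hρ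
    (norm_pos_iff.2 (div_ne_zero hP1 hP0)) (by positivity)
    (norm_pos_iff.2 (div_ne_zero hp3 hp4))
    (fun t ht => hUK (hball (by simpa using ht))) hr
    (fun n m hm => div_ne_zero (hq0 n _ (by omega) hm) (hq0 n _ (by omega) hm.le))
    (fun n => by
      rcases n with _ | n
      · simp [u, q]
      · have : u (n + 1) 0 = ((n + 1 : ℕ) : ℂ) * ((derivative P).eval z / P.eval z) := by
          simp only [u, q, zero_add, Function.iterate_one, Function.iterate_zero, id_eq,
            derivative_pow_succ, eval_mul, eval_pow, eval_C]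
          push_cast
          field_simp
          ring
        rw [this, norm_mul, Complex.norm_natCast])
    (fun n m hm => by
      have h1 := hq0 n m (by omega) (by omega)
      have h2 := hq0 n (m + 1) (by omega) (by omega)
      have b := logderiv_bound' (derivative^[m] (P ^ n)) z δ hδ (4 * n)
        ((natDegree_iterate_derivative _ _).trans (by
          have := natDegree_pow_le (p := P) (n := n)
          rw [hP] at this
          omega)) (hfar' n m (by omega) (by omega))
      have e1 : (derivative (derivative^[m] (P ^ n))).eval z = q n (m + 1) := by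
        simp only [q, Function.iterate_succ_apply']
      have e2 : (derivative (derivative (derivative^[m] (P ^ n)))).eval z = q n (m + 1 + 1) := by
        simp only [q, Function.iterate_succ_apply']
      rw [e1, e2] at b
      change ‖q n (m + 1 + 1) * q n m - q n (m + 1) ^ 2‖ ≤ _ * ‖q n m‖ ^ 2 at b
      have e3 : u n m * (u n (m + 1) - u n m) =
          (q n (m + 1 + 1) * q n m - q n (m + 1) ^ 2) / q n m ^ 2 := by
        simp only [u]
        field_simp
      rw [← norm_mul, e3, norm_div, norm_pow, div_le_iff₀ (pow_pos (norm_pos_iff.2 h1) 2)]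
      refine b.trans (le_of_eq ?_)
      push_cast
      ring)
    (fun n m hm => by
      rw [hτ n m (by omega)]
      have rec1 := recurrence _ _ _ _ _ R hR n m
      have hdeg : (R ^ n).natDegree ≤ m + 1 := by
        have := natDegree_pow_le (p := R) (n := n)
        rw [hRdeg] at this
        omega
      rw [coeff_eq_zero_of_natDegree_lt (p := R ^ n) (n := m + 4) (by omega),
        coeff_eq_zero_of_natDegree_lt (p := R ^ n) (n := m + 3) (by omega),
        coeff_eq_zero_of_natDegree_lt (p := R ^ n) (n := m + 2) (by omega)] at rec1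
      have hm' : (m : ℂ) + 1 = 4 * n := by exact_mod_cast hm
      have h2 := ha0 n (m + 1) (by omega) (by omega)
      have : (R ^ n).coeff m / (R ^ n).coeff (m + 1) = (n : ℂ) * (R.coeff 3 / R.coeff 4) := by
        field_simp
        linear_combination (-1 : ℂ) * rec1 +
          (R.coeff 3 * (R ^ n).coeff (m + 1) + R.coeff 4 * (R ^ n).coeff m) * hm'
      rw [this, norm_mul, Complex.norm_natCast])
  obtain ⟨α, t, hα, htK, htU, heq⟩ := limit_point (R.coeff 0) (R.coeff 1) (R.coeff 2) (R.coeff 3)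
    (R.coeff 4) _ _ hK₀ hU₀ (Set.preimage_mono hUK) (fun ε hε => by
      obtain ⟨n, k, hk, h0, h1, hd⟩ := main ε hε
      have d0 := hd (k + 3) (by omega) (by omega)
      have d1 := hd (k + 2) (by omega) (by omega)
      have d2 := hd (k + 1) (by omega) (by omega)
      have d3 := hd k (by omega) (by omega)
      have hn1 : (0 : ℝ) < (n : ℝ) + 1 := by positivity
      refine ⟨((k : ℝ) + 4) / ((n : ℝ) + 1), _, _, _, _, _, ⟨by positivity, ?_⟩, h0, h1,
        d0, d1, d2, d3, ?_⟩
      · rw [div_le_iff₀ hn1]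
        have : ((k + 4 : ℕ) : ℝ) < ((4 * n : ℕ) : ℝ) := by exact_mod_cast hk
        push_cast at this
        linarith
      · rw [hτ n (k + 3) (by omega), hτ n (k + 2) (by omega), hτ n (k + 1) (by omega),
          hτ n k (by omega)]
        have rec1 := recurrence _ _ _ _ _ R hR n k
        have a4 := ha0 n (k + 4) (by omega) (by omega)
        have a3 := ha0 n (k + 3) (by omega) (by omega)
        have a2 := ha0 n (k + 2) (by omega) (by omega)
        have a1 := ha0 n (k + 1) (by omega) (by omega)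
        have hn2 : (n : ℂ) + 1 ≠ 0 := by exact_mod_cast Nat.succ_ne_zero n
        simp only [add_assoc, Nat.reduceAdd]
        push_cast
        field_simp
        linear_combination rec1)
  apply barrier (z + t) htK htU α hα
  have e1 : P.eval (z + t) = R.eval t := by rw [hRdef, taylor_eval, add_comm]
  have e2 : (derivative P).eval (z + t) = (derivative R).eval t := by
    rw [hRdef, taylor_apply, derivative_comp]
    simp [add_comm]
  rw [e1, e2, hR]
  simp only [derivative_add, derivative_mul, derivative_C, derivative_X, derivative_X_pow,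
    eval_add, eval_mul, eval_C, eval_X, eval_pow, eval_zero, eval_one, Nat.cast_ofNat]
  linear_combination heq

theorem mem_interior_shadow (P : ℂ[X]) (hP : P.natDegree = 4) (c : ℂ) (K U : Set ℂ)
    (hK : IsCompact K) (hU : IsOpen U) (hUK : U ⊆ K) (hc : c ∈ U)
    (barrier : ∀ w ∈ K, w ∉ U → ∀ α ∈ Set.Icc (0 : ℝ) 4,
      (α : ℂ) * P.eval w - (w - c) * (derivative P).eval w ≠ 0) :
    c ∈ interior (closure {y : ℂ | ∃ n m : ℕ, 1 ≤ n ∧ m ≤ n * P.natDegree ∧
      (derivative^[m] (P ^ n)).IsRoot y}) := by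
  rw [mem_interior_iff_mem_nhds]
  have hcomp : IsCompact ((K \ U) ×ˢ Set.Icc (0 : ℝ) 4) := (hK.diff hU).prod isCompact_Icc
  have hev := hcomp.eventually_forall_of_forall_eventually (x₀ := c)
    (P := fun (z : ℂ) (y : ℂ × ℝ) =>
      (y.2 : ℂ) * P.eval y.1 - (y.1 - z) * (derivative P).eval y.1 ≠ 0) (fun y hy => by
      have hcont : Continuous fun x : ℂ × ℂ × ℝ =>
          (x.2.2 : ℂ) * P.eval x.2.1 - (x.2.1 - x.1) * (derivative P).eval x.2.1 := by
        fun_prop
      exact hcont.continuousAt.eventually_ne (barrier y.1 hy.1.1 hy.1.2 y.2 hy.2))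
  filter_upwards [hev, hU.mem_nhds hc] with z hz hzU
  exact mem_shadow P hP z K U hK hU hUK hzU fun w hw hwU α hα => hz (w, α) ⟨⟨hw, hwU⟩, hα⟩

end Pool.Agent.MP_d2a4c3_an

end MrgPart1

-- ======== part 2: formerly Pool.Agent.MP_d2a4c3_an.Example
section MrgPart2

set_option autoImplicit false

namespace Pool.Agent.MP_d2a4c3_an

open Polynomial Complex

/-- The four roots. -/
noncomputable def rts : Multiset ℂ := {-3 - I, -1 - 2 * I, 2 * I, 2}

/-- The quartic. -/
noncomputable def quartic : ℂ[X] := (rts.map fun r => X - C r).prod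

lemma quartic_roots : quartic.roots = rts := roots_multiset_prod_X_sub_C rts

lemma quartic_natDegree : quartic.natDegree = 4 := by
  rw [quartic, natDegree_multiset_prod_X_sub_C_eq_card]
  rfl

lemma mem_rts (z : ℂ) : z ∈ rts ↔ z = -3 - I ∨ z = -1 - 2 * I ∨ z = 2 * I ∨ z = 2 := by
  simp [rts]

lemma quartic_eq : quartic = (X - C (-3 - I)) * ((X - C (-1 - 2 * I)) *
    ((X - C (2 * I)) * (X - C 2))) := by
  simp only [quartic, rts, Multiset.insert_eq_cons, Multiset.map_cons, Multiset.prod_cons,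
    Multiset.map_singleton, Multiset.prod_singleton]

lemma quartic_eval (w : ℂ) :
    quartic.eval w = (w - (-3 - I)) * ((w - (-1 - 2 * I)) * ((w - 2 * I) * (w - 2))) := by
  rw [quartic_eq]
  simp only [eval_mul, eval_sub, eval_X, eval_C]

lemma quartic_deriv_eval (w : ℂ) : (derivative quartic).eval w =
    ((w - (-1 - 2 * I)) * ((w - 2 * I) * (w - 2))) + (w - (-3 - I)) *
      (((w - 2 * I) * (w - 2)) + (w - (-1 - 2 * I)) * ((w - 2) + (w - 2 * I))) := by
  rw [quartic_eq]
  simp only [derivative_mul, derivative_sub, derivative_X, derivative_C, eval_add, eval_mul,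
    eval_sub, eval_X, eval_C, eval_one, eval_zero]
  ring

lemma real_form (w : ℂ) (α : ℝ) (h0 : 0 ≤ α) (h4 : α ≤ 4)
    (h : (α : ℂ) * quartic.eval w - (w - 0) * (derivative quartic).eval w = 0) :
    fB w.re w.im = 0 ∧ 0 ≤ fA w.re w.im ∧ fA w.re w.im ≤ 4 * fD w.re w.im := by
  rw [quartic_eval, quartic_deriv_eval] at h
  have h1 := congrArg Complex.re h
  have h2 := congrArg Complex.im h
  simp only [sub_re, mul_re, add_re, neg_re, ofReal_re, ofReal_im, sub_im, mul_im, add_im, neg_im,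
    I_re, I_im, re_ofNat, im_ofNat, one_re, one_im, zero_re, zero_im] at h1 h2
  have e1 : nr w.re w.im = α * pr w.re w.im := by
    simp only [nr, pr]
    linear_combination -h1
  have e2 : ni w.re w.im = α * pi w.re w.im := by
    simp only [ni, pi]
    linear_combination -h2
  have hD : 0 ≤ fD w.re w.im := add_nonneg (mul_self_nonneg _) (mul_self_nonneg _)
  have hA : fA w.re w.im = α * fD w.re w.im := by
    simp only [fA, fD, e1, e2]
    ring
  refine ⟨?_, ?_, ?_⟩
  · simp only [fB, e1, e2]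
    ring
  · rw [hA]
    positivity
  · rw [hA]
    gcongr

theorem zero_mem_interior : (0 : ℂ) ∈ interior (closure {y : ℂ | ∃ n m : ℕ, 1 ≤ n ∧
    m ≤ n * quartic.natDegree ∧ (derivative^[m] (quartic ^ n)).IsRoot y}) := by
  refine mem_interior_shadow quartic quartic_natDegree 0
    ((Set.Icc (-4) 7 ×ℂ Set.Icc (-4) 5) ∩ ({w | w.re ≤ 1 / 3} ∪ {w | w.im ≤ 1 / 3}))
    ((Set.Ioo (-4) 7 ×ℂ Set.Ioo (-4) 5) ∩ ({w | w.re < 1 / 3} ∪ {w | w.im < 1 / 3}))
    ((isCompact_Icc.reProdIm isCompact_Icc).inter_right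
      ((isClosed_le continuous_re continuous_const).union
        (isClosed_le continuous_im continuous_const)))
    ((isOpen_Ioo.reProdIm isOpen_Ioo).inter
      ((isOpen_lt continuous_re continuous_const).union
        (isOpen_lt continuous_im continuous_const))) ?_ ?_ ?_
  · rintro w ⟨⟨h1, h2⟩, h3⟩
    refine ⟨⟨Set.Ioo_subset_Icc_self h1, Set.Ioo_subset_Icc_self h2⟩, ?_⟩
    rcases h3 with h3 | h3
    · exact Or.inl (show w.re ≤ 1 / 3 from le_of_lt h3)
    · exact Or.inr (show w.im ≤ 1 / 3 from le_of_lt h3)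
  · simp only [Set.mem_inter_iff, mem_reProdIm, Set.mem_Ioo, Set.mem_union, Set.mem_ofPred_eq,
      zero_re, zero_im]
    norm_num
  · intro w hw hwU α hα h
    obtain ⟨hB, hA, hD⟩ := real_form w α hα.1 hα.2 h
    simp only [Set.mem_inter_iff, mem_reProdIm, Set.mem_Ioo, Set.mem_Icc, Set.mem_union,
      Set.mem_ofPred_eq] at hw hwU
    generalize w.re = x at *
    generalize w.im = y at *
    obtain ⟨⟨⟨x1, x2⟩, y1, y2⟩, hxy⟩ := hw
    rcases x1.eq_or_lt with rfl | x1'
    · rcases le_total y (-1) with h' | h'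
      · have := left2 y y1 h'
        linarith
      · have := left1 y h' y2
        linarith
    rcases y1.eq_or_lt with rfl | y1'
    · have := bottom x x1 x2
      linarith
    rcases x2.eq_or_lt with rfl | x2'
    · have := right y y1 (hxy.resolve_left (by norm_num))
      linarith
    rcases y2.eq_or_lt with rfl | y2'
    · have := top x x1 (hxy.resolve_right (by norm_num))
      linarith
    have hge : 1 / 3 ≤ x ∧ 1 / 3 ≤ y := by
      by_contra hcon
      apply hwU
      refine ⟨⟨⟨x1', x2'⟩, y1', y2'⟩, ?_⟩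
      by_contra hcon2
      push Not at hcon2
      exact hcon hcon2
    rcases hxy with hx | hy
    · have hx' : x = 1 / 3 := le_antisymm hx hge.1
      subst hx'
      have := innerV y hge.2 y2
      linarith
    · have hy' : y = 1 / 3 := le_antisymm hy hge.2
      subst hy'
      rcases le_total x (3 / 5) with h' | h'
      · have := innerH1 x hge.1 h'
        linarith
      · have := innerH2 x h' x2
        linarith

end Pool.Agent.MP_d2a4c3_an

end MrgPart2

-- marker of a merged file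
example : 731051 + 464782 = 731051 + 464782 := rfl
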